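import Pool.Agent.Helper88.T1.Df
import Pool.Agent.Helper11.SY.Ha
import Pool.Agent.Helper75.T1.Lim

/-!
MP_e1889a_ag: the volume of the flow valuation.
-/

set_option autoImplicit false

namespace Pool.Agent.Helper88.T1

open IsLocalRing Filter Pool.Agent.Helper11.SY

noncomputable section

/-- the dimension of the quotient by the preimage of a subspace -/
theorem col_step {V : Type} [AddCommGroup V] [Module ℂ V] (A B I I' : Submodule ℂ V)
    (T : V →ₗ[ℂ] V) (hII : I ≤ I') (hTA : ∀ f ∈ A, T f ∈ I') (hB : ∀ f, f ∈ B ↔ f ∈ A ∧ T f ∈ I)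
    [FiniteDimensional ℂ (V ⧸ A)] [FiniteDimensional ℂ (V ⧸ I)] :
    FiniteDimensional ℂ (V ⧸ B) ∧
      Module.finrank ℂ (V ⧸ B) + Module.finrank ℂ (V ⧸ I') ≤
        Module.finrank ℂ (V ⧸ A) + Module.finrank ℂ (V ⧸ I) := by
  have hBA : B ≤ A := fun f hf => ((hB f).1 hf).1
  have hBI : B ≤ I.comap T := fun f hf => ((hB f).1 hf).2
  -- the three maps
  set p : (V ⧸ B) →ₗ[ℂ] (V ⧸ A) := Submodule.mapQ B A LinearMap.id hBA with hp
  set t : (V ⧸ B) →ₗ[ℂ] (V ⧸ I) := Submodule.mapQ B I T hBI with ht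
  set r : (V ⧸ I) →ₗ[ℂ] (V ⧸ I') := Submodule.mapQ I I' LinearMap.id hII with hr
  have hker : ∀ x : V ⧸ B, p x = 0 → t x = 0 → x = 0 := by
    intro x
    induction x using Submodule.Quotient.induction_on with
    | _ f =>
      intro h1 h2
      rw [hp, Submodule.mapQ_apply, LinearMap.id_apply, Submodule.Quotient.mk_eq_zero] at h1
      rw [ht, Submodule.mapQ_apply, Submodule.Quotient.mk_eq_zero] at h2
      rw [Submodule.Quotient.mk_eq_zero]
      exact (hB f).2 ⟨h1, h2⟩
  have hfin : FiniteDimensional ℂ (V ⧸ B) := by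
    refine Module.Finite.of_injective (p.prod t) ?_
    rw [← LinearMap.ker_eq_bot, LinearMap.ker_eq_bot']
    intro x hx
    have h1 : p x = 0 := congrArg Prod.fst hx
    have h2 : t x = 0 := congrArg Prod.snd hx
    exact hker x h1 h2
  refine ⟨hfin, ?_⟩
  have h1 := LinearMap.finrank_range_add_finrank_ker p
  have h2 := LinearMap.finrank_range_add_finrank_ker r
  have h3 : Module.finrank ℂ (LinearMap.range p) ≤ Module.finrank ℂ (V ⧸ A) :=
    Submodule.finrank_le _
  have h4 : LinearMap.range r = ⊤ := by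
    rw [LinearMap.range_eq_top]
    intro x
    induction x using Submodule.Quotient.induction_on with
    | _ f => exact ⟨Submodule.Quotient.mk f, by rw [hr, Submodule.mapQ_apply, LinearMap.id_apply]⟩
  rw [h4, finrank_top] at h2
  have h5 : ∀ x ∈ LinearMap.ker p, t x ∈ LinearMap.ker r := by
    intro x
    induction x using Submodule.Quotient.induction_on with
    | _ f =>
      intro h
      rw [LinearMap.mem_ker, hp, Submodule.mapQ_apply, LinearMap.id_apply,
        Submodule.Quotient.mk_eq_zero] at h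
      rw [LinearMap.mem_ker, ht, Submodule.mapQ_apply, hr, Submodule.mapQ_apply,
        LinearMap.id_apply, Submodule.Quotient.mk_eq_zero]
      exact hTA f h
  have h6 : Module.finrank ℂ (LinearMap.ker p) ≤ Module.finrank ℂ (LinearMap.ker r) := by
    refine LinearMap.finrank_le_finrank_of_injective (f := t.restrict h5) ?_
    rw [← LinearMap.ker_eq_bot, LinearMap.ker_eq_bot']
    intro x hx
    have h7 : t x.1 = 0 := by
      have h8 := congrArg Subtype.val hx
      rwa [LinearMap.coe_restrict_apply] at h8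
    exact Subtype.ext (hker x.1 (LinearMap.mem_ker.1 x.2) h7)
  omega

/-- summation over residue classes -/
theorem col_sum (q : ℕ) (h : ℕ → ℕ) (J : ℕ) :
    ∑ t ∈ Finset.range q, ∑ i ∈ Finset.range J, h (t + i * q) = ∑ n ∈ Finset.range (J * q), h n := by
  induction J with
  | zero => simp
  | succ J ih =>
    rw [Nat.succ_mul, Finset.sum_range_add, ← ih, ← Finset.sum_add_distrib]
    refine Finset.sum_congr rfl fun t _ => ?_
    rw [Finset.sum_range_succ, add_comm t (J * q)]

/-- the numerical argument -/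
theorem col_num (q J F : ℕ) (g : ℕ → ℕ) (hg : ∀ n, g n ≤ g 0)
    (h : ∀ t < q, F + ∑ i ∈ Finset.range J, g (t + (i + 1) * q + 1) ≤
      ∑ i ∈ Finset.range (J + 1), g (t + i * q)) : q * F ≤ (q + 1) * g 0 := by
  have h1 : ∑ t ∈ Finset.range q, (F + ∑ i ∈ Finset.range J, g (t + (i + 1) * q + 1)) ≤
      ∑ t ∈ Finset.range q, ∑ i ∈ Finset.range (J + 1), g (t + i * q) :=
    Finset.sum_le_sum fun t ht => h t (Finset.mem_range.1 ht)
  rw [Finset.sum_add_distrib, Finset.sum_const, Finset.card_range, smul_eq_mul, col_sum] at h1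
  have h2 : ∑ t ∈ Finset.range q, ∑ i ∈ Finset.range J, g (t + (i + 1) * q + 1) =
      ∑ n ∈ Finset.range (J * q), g (q + 1 + n) := by
    rw [← col_sum q fun n => g (q + 1 + n)]
    refine Finset.sum_congr rfl fun t _ => Finset.sum_congr rfl fun i _ => ?_
    congr 1
    ring
  have h3 : ∑ n ∈ Finset.range ((J + 1) * q), g n ≤ ∑ n ∈ Finset.range (q + 1 + J * q), g n := by
    refine Finset.sum_le_sum_of_subset ?_
    rw [Finset.range_subset_range]
    nlinarith
  rw [Finset.sum_range_add] at h3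
  have h4 : ∑ n ∈ Finset.range (q + 1), g n ≤ (q + 1) * g 0 := by
    refine (Finset.sum_le_sum fun n _ => hg n).trans ?_
    rw [Finset.sum_const, Finset.card_range, smul_eq_mul]
  rw [h2] at h1
  omega

section Main

variable {R : Type} [CommRing R] [Algebra ℂ R] [IsLocalRing R]

/-- the valuation ideal as a subspace -/
def Vs (w : CVal R) (x : ℝ) : Submodule ℂ R := (w.idl x).restrictScalars ℂ

theorem mem_Vs (w : CVal R) (x : ℝ) (f : R) : f ∈ Vs w x ↔ (x : WithTop ℝ) ≤ w.v f := Iff.rfl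

theorem finrank_Vs (w : CVal R) (x : ℝ) :
    Module.finrank ℂ (R ⧸ w.idl x) = Module.finrank ℂ (R ⧸ Vs w x) :=
  (LinearEquiv.finrank_eq (Submodule.Quotient.restrictScalarsEquiv ℂ (w.idl x))).symm

theorem Vs_anti (w : CVal R) {x y : ℝ} (h : x ≤ y) : Vs w y ≤ Vs w x := fun f hf =>
  le_trans (WithTop.coe_le_coe.2 h) ((mem_Vs w y f).1 hf)

theorem fin_Vs [IsNoetherianRing R]
    (hres : ∀ f : R, ∃ c : ℂ, f - algebraMap ℂ R c ∈ maximalIdeal R) (w : CVal R) (x : ℝ) :
    FiniteDimensional ℂ (R ⧸ Vs w x) := by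
  obtain ⟨N, hN⟩ := pow_le_idl w x
  haveI : FiniteDimensional ℂ (R ⧸ maximalIdeal R ^ N) := fin_pow hres N
  haveI : FiniteDimensional ℂ (R ⧸ w.idl x) :=
    Module.Finite.of_surjective (Ideal.Quotient.factorₐ ℂ hN).toLinearMap
      (Ideal.Quotient.factor_surjective hN)
  exact Module.Finite.equiv (Submodule.Quotient.restrictScalarsEquiv ℂ (w.idl x)).symm

theorem finrank_anti {V : Type} [AddCommGroup V] [Module ℂ V] {A B : Submodule ℂ V} (h : A ≤ B)
    [FiniteDimensional ℂ (V ⧸ A)] : Module.finrank ℂ (V ⧸ B) ≤ Module.finrank ℂ (V ⧸ A) := by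
  refine LinearMap.finrank_le_finrank_of_surjective (f := Submodule.factor h) ?_
  exact Submodule.factor_surjective h

theorem finrank_Vs_mono [IsNoetherianRing R]
    (hres : ∀ f : R, ∃ c : ℂ, f - algebraMap ℂ R c ∈ maximalIdeal R) (w : CVal R) {x y : ℝ}
    (h : x ≤ y) : Module.finrank ℂ (R ⧸ Vs w x) ≤ Module.finrank ℂ (R ⧸ Vs w y) := by
  haveI := fin_Vs hres w y
  exact finrank_anti (Vs_anti w h)

/-- iterates of a derivation as a linear map -/
def Dit (D : Derivation ℂ R R) (j : ℕ) : R →ₗ[ℂ] R := (D : R →ₗ[ℂ] R) ^ j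

theorem Dit_apply (D : Derivation ℂ R R) (j : ℕ) (f : R) : Dit D j f = (D : R → R)^[j] f := by
  rw [Dit, Module.End.pow_apply]
  rfl

/-- the first conditions -/
def Wj (w : CVal R) (D : Derivation ℂ R R) (s M : ℝ) (j : ℕ) : Submodule ℂ R :=
  ⨅ i : Fin j, (Vs w (M - i * s)).comap (Dit D i)

theorem mem_Wj (w : CVal R) (D : Derivation ℂ R R) (s M : ℝ) (j : ℕ) (f : R) :
    f ∈ Wj w D s M j ↔ ∀ i < j, ((M - i * s : ℝ) : WithTop ℝ) ≤ w.v ((D : R → R)^[i] f) := by
  rw [Wj, Submodule.mem_iInf]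
  constructor
  · intro h i hi
    have h1 := h ⟨i, hi⟩
    rwa [Submodule.mem_comap, Dit_apply, mem_Vs] at h1
  · intro h i
    rw [Submodule.mem_comap, Dit_apply, mem_Vs]
    exact h i i.2

theorem Wj_bound [IsNoetherianRing R]
    (hres : ∀ f : R, ∃ c : ℂ, f - algebraMap ℂ R c ∈ maximalIdeal R) (w : CVal R)
    (D : Derivation ℂ R R) (s e M : ℝ) (he : 0 < e)
    (hD : ∀ f, w.v f ≤ w.v (D f) + ((s + e : ℝ) : WithTop ℝ)) (j : ℕ) :
    FiniteDimensional ℂ (R ⧸ Wj w D s M (j + 1)) ∧
      Module.finrank ℂ (R ⧸ Wj w D s M (j + 1)) +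
        ∑ i ∈ Finset.range j, Module.finrank ℂ (R ⧸ Vs w (M - (i + 1) * s - e)) ≤
      ∑ i ∈ Finset.range (j + 1), Module.finrank ℂ (R ⧸ Vs w (M - i * s)) := by
  induction j with
  | zero =>
    have h1 : Wj w D s M (0 + 1) = Vs w (M - (0 : ℕ) * s) := by
      ext f
      rw [mem_Wj, mem_Vs]
      constructor
      · intro h
        exact h 0 Nat.one_pos
      · intro h i hi
        have hi' : i = 0 := by omega
        subst hi'
        exact h
    rw [h1, Finset.sum_range_zero, Finset.sum_range_one]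
    exact ⟨fin_Vs hres w _, le_rfl⟩
  | succ j ih =>
    obtain ⟨hfin, hle⟩ := ih
    haveI := hfin
    haveI := fin_Vs hres w (M - (j + 1 : ℕ) * s)
    have h1 := col_step (Wj w D s M (j + 1)) (Wj w D s M (j + 1 + 1)) (Vs w (M - (j + 1 : ℕ) * s))
      (Vs w (M - (j + 1) * s - e)) (Dit D (j + 1)) ?_ ?_ ?_
    · refine ⟨h1.1, ?_⟩
      rw [Finset.sum_range_succ, Finset.sum_range_succ _ (j + 1)]
      have h2 := h1.2
      omega
    · refine Vs_anti w ?_
      push_cast
      linarith
    · intro f hf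
      rw [mem_Wj] at hf
      have h2 := hf j (Nat.lt_succ_self j)
      have h3 := hD ((D : R → R)^[j] f)
      rw [mem_Vs, Dit_apply, Function.iterate_succ_apply']
      have h4 := h2.trans h3
      generalize w.v (D ((D : R → R)^[j] f)) = y at h4
      induction y using WithTop.recTopCoe with
      | top => exact le_top
      | coe y =>
        rw [← WithTop.coe_add, WithTop.coe_le_coe] at h4
        rw [WithTop.coe_le_coe]
        linarith
    · intro f
      rw [mem_Wj, mem_Wj, mem_Vs, Dit_apply]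
      constructor
      · intro h
        exact ⟨fun i hi => h i (by omega), h (j + 1) (by omega)⟩
      · intro h i hi
        rcases Nat.lt_succ_iff_lt_or_eq.1 hi with h5 | h5
        · exact h.1 i h5
        · rw [h5]
          exact h.2

theorem flow_Wj (w u : CVal R) (D : Derivation ℂ R R) (s M : ℝ) (hs : 0 < s)
    (hu : IsFlow w D s u) (J : ℕ) (hJ : M ≤ J * s) : Vs u M = Wj w D s M J := by
  ext f
  rw [mem_Vs, mem_Wj]
  constructor
  · intro h i _
    have h1 := h.trans (hu.le f i)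
    generalize w.v ((D : R → R)^[i] f) = y at h1
    induction y using WithTop.recTopCoe with
    | top => exact le_top
    | coe y =>
      rw [← WithTop.coe_add, WithTop.coe_le_coe] at h1
      rw [WithTop.coe_le_coe]
      linarith
  · intro h
    obtain ⟨j, hj⟩ := hu.eq f
    rw [hj]
    have h1 : ((M - j * s : ℝ) : WithTop ℝ) ≤ w.v ((D : R → R)^[j] f) := by
      rcases lt_or_ge j J with h2 | h2
      · exact h j h2
      · refine le_trans ?_ (w.nonneg _)
        rw [← WithTop.coe_zero, WithTop.coe_le_coe]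
        have h3 : (J : ℝ) * s ≤ j * s := mul_le_mul_of_nonneg_right (Nat.cast_le.2 h2) hs.le
        linarith
    generalize w.v ((D : R → R)^[j] f) = y at h1
    induction y using WithTop.recTopCoe with
    | top => exact le_top
    | coe y =>
      rw [WithTop.coe_le_coe] at h1
      rw [← WithTop.coe_add, WithTop.coe_le_coe]
      linarith

/-- the colengths of the flow valuation -/
theorem flow_len [IsNoetherianRing R]
    (hres : ∀ f : R, ∃ c : ℂ, f - algebraMap ℂ R c ∈ maximalIdeal R) (w u : CVal R)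
    (D : Derivation ℂ R R) (e : ℝ) (q : ℕ) (he : 0 < e) (hq : 1 ≤ q)
    (hD : ∀ f, w.v f ≤ w.v (D f) + ((q * e + e : ℝ) : WithTop ℝ)) (hu : IsFlow w D (q * e) u)
    (M : ℝ) :
    q * Module.finrank ℂ (R ⧸ Vs u M) ≤
      (q + 1) * Module.finrank ℂ (R ⧸ Vs w (M + (q - 1) * e)) := by
  have hq' : (1 : ℝ) ≤ q := by exact_mod_cast hq
  have hs : (0 : ℝ) < q * e := mul_pos (by linarith) he
  set x : ℝ := M + (q - 1) * e with hx
  obtain ⟨J, hJ⟩ := exists_nat_ge (x / (q * e))
  rw [div_le_iff₀ hs] at hJ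
  set g : ℕ → ℕ := fun n => Module.finrank ℂ (R ⧸ Vs w (x - n * e)) with hg
  have hg0 : g 0 = Module.finrank ℂ (R ⧸ Vs w x) := by
    have h1 : x - ((0 : ℕ) : ℝ) * e = x := by
      rw [Nat.cast_zero, zero_mul, sub_zero]
    show Module.finrank ℂ (R ⧸ Vs w (x - ((0 : ℕ) : ℝ) * e)) = _
    rw [h1]
  have h0 := col_num q J (Module.finrank ℂ (R ⧸ Vs u M)) g ?_ ?_
  · rwa [hg0] at h0
  · intro n
    refine finrank_Vs_mono hres w ?_
    have h1 : (0 : ℝ) ≤ n * e := mul_nonneg (Nat.cast_nonneg n) he.le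
    rw [Nat.cast_zero, zero_mul]
    linarith
  · intro t ht
    have ht' : (t : ℝ) ≤ q - 1 := by
      have h1 : ((t + 1 : ℕ) : ℝ) ≤ q := Nat.cast_le.2 ht
      push_cast at h1
      linarith
    have h1 := Wj_bound hres w D (q * e) e (x - t * e) he hD J
    have h2 : Vs u (x - t * e) = Wj w D (q * e) (x - t * e) (J + 1) := by
      refine flow_Wj w u D (q * e) _ hs hu (J + 1) ?_
      have h3 : (0 : ℝ) ≤ t * e := mul_nonneg (Nat.cast_nonneg t) he.le
      push_cast
      linarith
    rw [← h2] at h1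
    have h4 : Module.finrank ℂ (R ⧸ Vs u M) ≤ Module.finrank ℂ (R ⧸ Vs u (x - t * e)) := by
      refine finrank_Vs_mono hres u ?_
      have h5 : (t : ℝ) * e ≤ (q - 1) * e := mul_le_mul_of_nonneg_right ht' he.le
      linarith
    have h6 : ∑ i ∈ Finset.range J, g (t + (i + 1) * q + 1) =
        ∑ i ∈ Finset.range J, Module.finrank ℂ
          (R ⧸ Vs w (x - t * e - (i + 1) * (q * e) - e)) := by
      refine Finset.sum_congr rfl fun i _ => ?_
      rw [hg]
      have h7 : x - ((t + (i + 1) * q + 1 : ℕ) : ℝ) * e = x - t * e - (i + 1) * (q * e) - e := by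
        push_cast
        ring
      show Module.finrank ℂ (R ⧸ Vs w (x - ((t + (i + 1) * q + 1 : ℕ) : ℝ) * e)) = _
      rw [h7]
    have h8 : ∑ i ∈ Finset.range (J + 1), g (t + i * q) =
        ∑ i ∈ Finset.range (J + 1), Module.finrank ℂ (R ⧸ Vs w (x - t * e - i * (q * e))) := by
      refine Finset.sum_congr rfl fun i _ => ?_
      rw [hg]
      have h7 : x - ((t + i * q : ℕ) : ℝ) * e = x - t * e - i * (q * e) := by
        push_cast
        ring
      show Module.finrank ℂ (R ⧸ Vs w (x - ((t + i * q : ℕ) : ℝ) * e)) = _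
      rw [h7]
    rw [h6, h8]
    exact le_trans (Nat.add_le_add_right h4 _) h1.2

end Main

theorem s_COL : S_COL := by
  intro R _ _ _ _ _ hres N w u D δ q _ hδ hq hD hu
  have hq0 : (0 : ℝ) < (q : ℝ) + 1 := by positivity
  have he : 0 < δ / (q + 1) := div_pos hδ hq0
  have h1 : δ * q / (q + 1) = q * (δ / (q + 1)) := by ring
  have h2 : δ = q * (δ / (q + 1)) + δ / (q + 1) := by
    field_simp
  obtain ⟨a, ha⟩ := exists_nat_ge (((q : ℝ) - 1) * (δ / (q + 1)))
  rw [h1] at hu
  rw [h2] at hD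
  refine limsup_shift N q a hq (fun k => Module.finrank ℂ (R ⧸ u.idl k))
    (fun k => Module.finrank ℂ (R ⧸ w.idl k)) fun k => ?_
  rw [finrank_Vs, finrank_Vs]
  refine (flow_len hres w u D _ q he hq hD hu k).trans
    (Nat.mul_le_mul_left _ (finrank_Vs_mono hres w ?_))
  rw [Nat.cast_add]
  linarith

end

end Pool.Agent.Helper88.T1
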